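import Pool.Agent.Q325.SO.Fin
import Pool.Agent.Q325.SO.TaskPStep
import Pool.Agent.Q325.SO.TaskPWords
import Pool.Agent.Q325.SO.TaskPZero
import Pool.Agent.Q325.SO.TaskPD0
import Pool.Agent.Q325.SO.TaskPBd
import Pool.Agent.Q325.SO.TaskPSearch
import Pool.Agent.Q325.SO.TaskWords
import Pool.Agent.Q325.SO.TaskZero
import Pool.Agent.Q325.SO.TaskStep
import Pool.Agent.Q325.SO.TaskBd
import Pool.Agent.Q325.SO.TaskWord
import Pool.Agent.Q325.SO.TaskWordNe
import Pool.Agent.Q325.SO.TaskAdd
import Pool.Agent.Q325.SO.TaskLin
import Pool.Agent.Q325.SO.TaskTime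
import Pool.Agent.Q325.SO.TaskOrbit
import Pool.Agent.Q325.SO.TorAlt
import Pool.Agent.Q325.SO.TaskSpeed
import Pool.Agent.Q325.SO.TaskPow
import Pool.Agent.Q325.SO.TaskKer
import Pool.Agent.Q325.SO.TaskPeriod
import Pool.Agent.Q325.SO.TaskOrder
import Pool.Agent.Q325.SO.TaskNorm
import Pool.Agent.Q325.SO.TaskField
import Pool.Agent.Q325.SO.TaskLA
import Pool.Agent.Q325.SO.TaskAbs
import Pool.Agent.Q325.SO.TaskEig

/-!
# Having a soliton is decidable for abelian cellular automata

There is an algorithm that decides, given an abelian cellular automaton (the group table and the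
tables of the endomorphisms), whether it has a soliton. The automaton `F` on the group with `m`
elements has a soliton if and only if `F` kills a nonzero finite configuration, or `F ^ k` acts on
a nonzero finite configuration as a shift, where `1 ≤ k ≤ m * m ^ m`.

Idea: a soliton gives a nonzero finite configuration `y` with `F ^ k y` a shift of `y` (or a
nonzero finite configuration in the kernel), and a multiple of `y` has prime order `p`. So an
eigenvalue `l` of `F` over a finite extension `L` of the field of the rational functions over
`ZMod p`, of a degree at most `m`, satisfies `l ^ k = X ^ s`. Up to a root of unity a power of `l`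
with an exponent at most the degree (take norms) is a power of `X`, and the order of a root of unity
divides `p ^ e - 1`, where `e` is at most the degree. So `k` is bounded. Then
`F ^ k - shift` is an abelian cellular automaton with a bounded radius, and if its kernel contains
a nonzero finite configuration, then it contains one of a bounded length (cut and paste).
-/

namespace Pool.Agent.Results.MP_5c31ca_lc.SolitonsDecidable

open Pool.Agent.Q325.SO

/-- There is an algorithm that decides, given the tables of an abelian cellular automaton, whether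
it has a soliton (first part); the set of all tables of abelian cellular automata and the set of the
tables of those with a soliton are decidable (second and third part); the criterion for having a
soliton (fourth part). -/
theorem result :
    (∃ f : List (List ℕ) × List (List ℕ) → Bool, Computable f ∧
      ∀ (A : Type) [AddCommGroup A] (m : ℕ) (e : A ≃ Fin m) (r : ℕ) (h : ℕ → A →+ A),
        f (table e, rules e r h) = true ↔ HasSoliton r h) ∧
    ComputablePred (fun p : List (List ℕ) × List (List ℕ) =>
      ∃ (A : Type) (_ : AddCommGroup A) (m : ℕ) (e : A ≃ Fin m) (r : ℕ) (h : ℕ → A →+ A),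
        p = (table e, rules e r h)) ∧
    ComputablePred (fun p : List (List ℕ) × List (List ℕ) =>
      ∃ (A : Type) (_ : AddCommGroup A) (m : ℕ) (e : A ≃ Fin m) (r : ℕ) (h : ℕ → A →+ A),
        p = (table e, rules e r h) ∧ HasSoliton r h) ∧
    ∀ (A : Type) [AddCommGroup A] (m : ℕ) (_ : A ≃ Fin m) (r : ℕ) (h : ℕ → A →+ A),
      HasSoliton r h ↔
        (∃ y : ℤ → A, y ≠ 0 ∧ {i | y i ≠ 0}.Finite ∧ F r h y = 0) ∨
        ∃ (k : ℕ) (s : ℤ) (y : ℤ → A), 1 ≤ k ∧ k ≤ m * m ^ m ∧ y ≠ 0 ∧ {i | y i ≠ 0}.Finite ∧
          (F r h)^[k] y = fun i => y (i + s) := by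
  have hLA := TaskLA_proof (TaskField_proof TaskOrder_proof TaskNorm_proof)
  have hEig : ConclEig := TaskEig_proof (TaskAbs_proof hLA) TaskAdd_proof
  obtain ⟨h1, h2, h3⟩ := final
    (TaskPSearch_proof TaskPStep_proof TaskPWords_proof TaskPZero_proof TaskPD0_proof
      TaskPBd_proof)
    (search_iff TaskAdd_proof TaskWord_proof TaskOrbit_proof TaskTor_alt hEig TaskSpeed_proof
      TaskPow_proof TaskKer_proof TaskPeriod_proof TaskWords_proof TaskZero_proof TaskStep_proof
      TaskBd_proof TaskWordNe_proof TaskLin_proof TaskTime_proof)
  exact ⟨h1, h2, h3, fun A _ m e r h => criterion TaskAdd_proof TaskWord_proof TaskOrbit_proof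
    TaskTor_alt hEig TaskSpeed_proof TaskPow_proof TaskKer_proof TaskPeriod_proof TaskLin_proof
    A m e r h⟩

end Pool.Agent.Results.MP_5c31ca_lc.SolitonsDecidable
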